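import Pool.Agent.H11.LD.Targets

/-!
# Row HAM of `ldm_modules`: a connected graph of maximum degree at most two has a Hamiltonian path
-/

set_option autoImplicit false

open Finset Classical

namespace Pool.Agent.H75.LD

open Pool.Agent.H11.LD Pool.Agent.H9.Lap

/-- `q 0, …, q (L-1)` is a path. -/
def IsP {g : ℕ} (H : SimpleGraph (Fin g)) (L : ℕ) (q : ℕ → Fin g) : Prop :=
  (∀ i k, i < L → k < L → q i = q k → i = k) ∧ ∀ i, i + 1 < L → H.Adj (q i) (q (i + 1))

/-- A set closed under adjacency in a connected graph is everything. -/
theorem exists_edge_out {V : Type} {H : SimpleGraph V} (hH : H.Connected) (S : Set V) {a b : V}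
    (ha : a ∈ S) (hb : b ∉ S) : ∃ x y, x ∈ S ∧ y ∉ S ∧ H.Adj x y := by
  by_contra hcon
  push Not at hcon
  have key : ∀ u v : V, H.Reachable u v → u ∈ S → v ∈ S := by
    intro u v huv
    obtain ⟨w⟩ := huv
    induction w with
    | nil => exact fun h => h
    | cons hadj _ ih =>
      intro hu
      refine ih ?_
      by_contra hv
      exact hcon _ _ hu hv hadj
  exact hb (key a b (hH.preconnected a b) ha)

/-- One more vertex. -/
theorem IsP.step {g : ℕ} {H : SimpleGraph (Fin g)} (hH : H.Connected)
    (hd : ∀ i, (nb H i).card ≤ 2) {L : ℕ} (hL : 1 ≤ L) (hLg : L < g) {q : ℕ → Fin g}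
    (hq : IsP H L q) : ∃ q', IsP H (L + 1) q' := by
  obtain ⟨hinj, hadj⟩ := hq
  have hex : ∃ b : Fin g, ∀ i, i < L → q i ≠ b := by
    by_contra hcon
    push Not at hcon
    have h1 : (univ : Finset (Fin g)) ⊆ (range L).image q := by
      intro b _
      obtain ⟨i, hi, hib⟩ := hcon b
      exact mem_image.mpr ⟨i, mem_range.mpr hi, hib⟩
    have h2 := card_le_card h1
    have h3 : ((range L).image q).card ≤ (range L).card := card_image_le
    rw [card_univ, Fintype.card_fin] at h2
    rw [card_range] at h3
    omega
  obtain ⟨b, hb⟩ := hex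
  obtain ⟨x, y, ⟨i, hi, rfl⟩, hy, hxy⟩ := exists_edge_out hH {v | ∃ i, i < L ∧ q i = v}
    (a := q 0) (b := b) ⟨0, hL, rfl⟩ (fun ⟨i, hi, h⟩ => hb i hi h)
  have hy' : ∀ k, k < L → q k ≠ y := fun k hk h => hy ⟨k, hk, h⟩
  by_cases hlast : i + 1 = L
  · refine ⟨fun k => if k < L then q k else y, ?_, ?_⟩
    · intro a c ha hc hac
      by_cases h1 : a < L <;> by_cases h2 : c < L
      · simp only [h1, h2, if_true] at hac
        exact hinj a c h1 h2 hac
      · simp only [h1, h2, if_true, if_false] at hac
        exact absurd hac (hy' a h1)
      · simp only [h1, h2, if_true, if_false] at hac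
        exact absurd hac.symm (hy' c h2)
      · omega
    · intro a ha
      by_cases h1 : a + 1 < L
      · have h2 : a < L := by omega
        simp only [h1, h2, if_true]
        exact hadj a h1
      · have h2 : a < L := by omega
        have h3 : a = i := by omega
        simp only [h1, h2, if_true, if_false]
        rw [h3]
        exact hxy
  · by_cases hzero : i = 0
    · refine ⟨fun k => if k = 0 then y else q (k - 1), ?_, ?_⟩
      · intro a c ha hc hac
        by_cases h1 : a = 0 <;> by_cases h2 : c = 0
        · omega
        · simp only [h1, h2, if_true, if_false] at hac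
          exact absurd hac.symm (hy' (c - 1) (by omega))
        · simp only [h1, h2, if_true, if_false] at hac
          exact absurd hac (hy' (a - 1) (by omega))
        · simp only [h1, h2, if_false] at hac
          have := hinj (a - 1) (c - 1) (by omega) (by omega) hac
          omega
      · intro a ha
        by_cases h1 : a = 0
        · have h2 : ¬ a + 1 = 0 := by omega
          simp only [h1, if_true]
          have h4 : q (0 + 1 - 1) = q i := by rw [hzero]
          simp only [Nat.add_eq_zero_iff, one_ne_zero, and_false, if_false]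
          rw [h4]
          exact hxy.symm
        · have h2 : ¬ a + 1 = 0 := by omega
          simp only [h1, h2, if_false]
          have h3 : a + 1 - 1 = (a - 1) + 1 := by omega
          rw [h3]
          exact hadj (a - 1) (by omega)
    · exfalso
      have h1 : H.Adj (q i) (q (i - 1)) := by
        have h := hadj (i - 1) (by omega)
        have h3 : i - 1 + 1 = i := by omega
        rw [h3] at h
        exact h.symm
      have h2 : H.Adj (q i) (q (i + 1)) := hadj i (by omega)
      have hne : q (i - 1) ≠ q (i + 1) := by
        intro h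
        have := hinj (i - 1) (i + 1) (by omega) (by omega) h
        omega
      have hsub : ({q (i - 1), q (i + 1), y} : Finset (Fin g)) ⊆ nb H (q i) := by
        intro v hv
        simp only [mem_insert, mem_singleton] at hv
        rcases hv with rfl | rfl | rfl
        · exact mem_filter.mpr ⟨mem_univ _, h1⟩
        · exact mem_filter.mpr ⟨mem_univ _, h2⟩
        · exact mem_filter.mpr ⟨mem_univ _, hxy⟩
      have hcard : ({q (i - 1), q (i + 1), y} : Finset (Fin g)).card = 3 := by
        rw [card_eq_three]
        exact ⟨_, _, _, hne, hy' _ (by omega), hy' _ (by omega), rfl⟩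
      have := card_le_card hsub
      have := hd (q i)
      omega

theorem pf_HAM : T_HAM := by
  intro g H hH hd
  have hne : Nonempty (Fin g) := hH.nonempty
  have hg : 0 < g := Fin.pos_iff_nonempty.mpr hne
  have hall : ∀ L, 1 ≤ L → L ≤ g → ∃ q, IsP H L q := by
    intro L
    induction L with
    | zero => intro h; omega
    | succ L ih =>
      intro _ hLg
      rcases Nat.eq_zero_or_pos L with rfl | hL
      · refine ⟨fun _ => ⟨0, hg⟩, ?_, ?_⟩
        · intro i k hi hk _; omega
        · intro i hi; omega
      · obtain ⟨q, hq⟩ := ih hL (by omega)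
        exact hq.step hH hd hL (by omega)
  obtain ⟨q, hinj, hadj⟩ := hall g hg le_rfl
  have hsurj : ∀ v : Fin g, ∃ i, i < g ∧ q i = v := by
    have hi : Function.Injective (fun i : Fin g => q i) := by
      intro a c hac
      exact Fin.ext (hinj a c a.2 c.2 hac)
    have hs := Finite.surjective_of_injective hi
    intro v
    obtain ⟨i, hi⟩ := hs v
    exact ⟨i, i.2, hi⟩
  choose pos hpos1 hpos2 using hsurj
  refine ⟨pos, hpos1, ?_, ?_⟩
  · intro a c hac
    rw [← hpos2 a, ← hpos2 c, hac]
  · intro i k hik
    have h := hadj (pos i) (by rw [← hik]; exact hpos1 k)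
    rw [← hik, hpos2, hpos2] at h
    exact h

end Pool.Agent.H75.LD
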