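import Pool.Agent.H11.LD.Targets

/-!
# Row SIN of `ldm_modules`: the weights of the path
-/

set_option autoImplicit false

open Finset Classical

namespace Pool.Agent.H75.LD

open Pool.Agent.H11.LD Pool.Agent.H9.Lap

theorem sn_pos {g i : ℕ} (hi : i < g) : 0 < sn g i := by
  have hg : (0 : ℝ) < g := by exact_mod_cast (by omega : 0 < g)
  unfold sn
  apply Real.sin_pos_of_pos_of_lt_pi
  · positivity
  · rw [div_lt_iff₀ (by positivity)]
    have h : ((2 * i + 1 : ℕ) : ℝ) < ((2 * g : ℕ) : ℝ) := by exact_mod_cast (by omega)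
    push_cast at h
    exact mul_lt_mul_of_pos_left h Real.pi_pos

theorem sn_eq {g i k : ℕ} (hi : i < g) (hk : k < g) (h : sn g i = sn g k) :
    i = k ∨ i + k + 1 = g := by
  have hg : (0 : ℝ) < g := by exact_mod_cast (by omega : 0 < g)
  have hpi := Real.pi_ne_zero
  unfold sn at h
  rw [Real.sin_eq_sin_iff] at h
  obtain ⟨z, h | h⟩ := h
  · left
    have h1 : (2 * (k : ℝ) + 1) = 4 * g * z + (2 * i + 1) := by
      field_simp at h
      linarith
    have h2 : (2 * (k : ℤ) + 1) = 4 * g * z + (2 * i + 1) := by exact_mod_cast h1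
    have hi' : (i : ℤ) < g := by exact_mod_cast hi
    have hk' : (k : ℤ) < g := by exact_mod_cast hk
    have hz : z = 0 := by
      rcases lt_trichotomy z 0 with hz | hz | hz
      · nlinarith
      · exact hz
      · nlinarith
    rw [hz] at h2
    omega
  · right
    have h1 : (2 * (k : ℝ) + 1) + (2 * i + 1) = (2 * z + 1) * (2 * g) := by
      field_simp at h
      linarith
    have h2 : (2 * (k : ℤ) + 1) + (2 * i + 1) = (2 * z + 1) * (2 * g) := by exact_mod_cast h1
    have hi' : (i : ℤ) < g := by exact_mod_cast hi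
    have hk' : (k : ℤ) < g := by exact_mod_cast hk
    have hz : z = 0 := by
      rcases lt_trichotomy z 0 with hz | hz | hz
      · nlinarith
      · exact hz
      · nlinarith
    rw [hz] at h2
    omega

theorem sn_rec (g : ℕ) (hg : 2 ≤ g) (i : ℕ) :
    sn g i + sn g (i + 2) = 2 * Real.cos (Real.pi / g) * sn g (i + 1) := by
  have hg' : (g : ℝ) ≠ 0 := by
    have : 0 < g := by omega
    positivity
  unfold sn
  have h1 : Real.pi * (2 * (i : ℝ) + 1) / (2 * g) =
      Real.pi * (2 * ((i + 1 : ℕ) : ℝ) + 1) / (2 * g) - Real.pi / g := by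
    push_cast; field_simp; ring
  have h2 : Real.pi * (2 * ((i + 2 : ℕ) : ℝ) + 1) / (2 * g) =
      Real.pi * (2 * ((i + 1 : ℕ) : ℝ) + 1) / (2 * g) + Real.pi / g := by
    push_cast; field_simp; ring
  rw [h1, h2, Real.sin_sub, Real.sin_add]
  ring

theorem sn_one (g : ℕ) (hg : 2 ≤ g) :
    sn g 1 = (2 * Real.cos (Real.pi / g) + 1) * sn g 0 := by
  have hg' : (g : ℝ) ≠ 0 := by
    have : 0 < g := by omega
    positivity
  unfold sn
  have h1 : Real.pi * (2 * ((1 : ℕ) : ℝ) + 1) / (2 * g) = 3 * (Real.pi / (2 * g)) := by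
    push_cast; field_simp; ring
  have h2 : Real.pi * (2 * ((0 : ℕ) : ℝ) + 1) / (2 * g) = Real.pi / (2 * g) := by
    push_cast; field_simp; ring
  have h3 : Real.pi / g = 2 * (Real.pi / (2 * g)) := by
    field_simp
  rw [h1, h2, h3, Real.sin_three_mul, Real.cos_two_mul]
  have h4 := Real.sin_sq_add_cos_sq (Real.pi / (2 * g))
  have h5 : Real.cos (Real.pi / (2 * g)) ^ 2 = 1 - Real.sin (Real.pi / (2 * g)) ^ 2 := by
    linarith
  rw [h5]
  ring

theorem sn_refl (g i k : ℕ) (h : i + k + 1 = g) : sn g i = sn g k := by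
  have hg' : (g : ℝ) ≠ 0 := by
    have : 0 < g := by omega
    positivity
  unfold sn
  have h1 : Real.pi * (2 * (i : ℝ) + 1) / (2 * g) =
      Real.pi - Real.pi * (2 * (k : ℝ) + 1) / (2 * g) := by
    have h2 : (i : ℝ) + k + 1 = g := by exact_mod_cast h
    rw [← h2]
    have h3 : (i : ℝ) + k + 1 ≠ 0 := by rw [h2]; exact hg'
    field_simp
    ring
  rw [h1, Real.sin_pi_sub]

/-- Summation by parts. -/
theorem sum_parts (s : ℕ → ℝ) (c : ℝ) (h1 : s 1 = (2 * c + 1) * s 0)
    (h2 : ∀ i, s i + s (i + 2) = 2 * c * s (i + 1)) (M : ℕ) :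
    ∑ i ∈ range (M + 1), (s i + s (i + 1)) ^ 2 =
      (2 + 2 * c) * ∑ i ∈ range (M + 1), s i ^ 2 + s (M + 1) * (s (M + 1) + s M) := by
  induction M with
  | zero =>
    simp only [zero_add, range_one, sum_singleton]
    rw [h1]; ring
  | succ M ih =>
    rw [sum_range_succ, ih, sum_range_succ (fun i => s i ^ 2) (M + 1)]
    have h3 : s (M + 1 + 1) = 2 * c * s (M + 1) - s M := by
      have := h2 M
      have h4 : s (M + 2) = s (M + 1 + 1) := rfl
      linarith
    rw [h3]; ring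

theorem pf_SIN : T_SIN := by
  intro g hg
  have hg' : (g : ℝ) ≠ 0 := by
    have : 0 < g := by omega
    positivity
  refine ⟨fun i hi => sn_pos hi, fun i k hi hk h => sn_eq hi hk h, sn_rec g hg, sn_one g hg,
    sn_refl g (g - 1) 0 (by omega), ?_⟩
  obtain ⟨M, rfl⟩ : ∃ M, g = M + 2 := ⟨g - 2, by omega⟩
  have hs := sum_parts (sn (M + 2)) (Real.cos (Real.pi / ((M + 2 : ℕ) : ℝ))) (sn_one _ hg)
    (sn_rec _ hg) M
  have he : M + 2 - 1 = M + 1 := by omega
  rw [he, hs, sum_range_succ (fun i => sn (M + 2) i ^ 2) (M + 1)]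
  have h0 : sn (M + 2) (M + 1) = sn (M + 2) 0 := sn_refl _ _ _ (by omega)
  have h1 : sn (M + 2) M = sn (M + 2) 1 := sn_refl _ _ _ (by omega)
  have h2 := sn_one (M + 2) hg
  have h3 : 4 * Real.cos (Real.pi / (2 * ((M + 2 : ℕ) : ℝ))) ^ 2 =
      2 + 2 * Real.cos (Real.pi / ((M + 2 : ℕ) : ℝ)) := by
    have h4 : Real.pi / ((M + 2 : ℕ) : ℝ) = 2 * (Real.pi / (2 * ((M + 2 : ℕ) : ℝ))) := by
      field_simp
    rw [h4, Real.cos_two_mul]
    ring
  rw [h3, h1, h2, h0]
  ring

end Pool.Agent.H75.LD
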