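import Pool.Agent.H80.LD.Targets

/-! Limits of reflection positive systems: the two point function (row TWP). -/

set_option autoImplicit false

open MeasureTheory SchwartzMap Filter Topology
open scoped ENNReal ContDiff InnerProductSpace

namespace Pool.Agent.H75.LD

open Pool.Agent.H80.LD
open Pool.Agent.H43.DPC (V S SD moment trans rot IsMAO IsDC Diag)
open Pool.Agent.H43.DPCS (TransInv RotInv SelfSim Cond1 Cond123 IsDPC powKer)

/-- Either we are near a pair of different points, or the product vanishes nearby. -/
theorem twp_cont {d : ℕ} (c r : ℝ) (f g : S d) (hfg : Disjoint (tsupport f) (tsupport g)) :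
    Continuous fun z : V d × V d => c * ‖z.1 - z.2‖ ^ r * (f z.1 * g z.2) := by
  rw [continuous_iff_continuousAt]
  intro z
  by_cases h1 : z.1 ∈ tsupport f
  · by_cases h2 : z.2 ∈ tsupport g
    · have h3 : z.1 - z.2 ≠ 0 := by
        intro h
        rw [sub_eq_zero] at h
        rw [← h] at h2
        exact Set.disjoint_left.1 hfg h1 h2
      have h4 : ContinuousAt (fun z : V d × V d => ‖z.1 - z.2‖ ^ r) z :=
        ((continuous_fst.sub continuous_snd).norm.continuousAt).rpow_const
          (Or.inl (norm_ne_zero_iff.2 h3))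
      exact (continuousAt_const.mul h4).mul ((f.continuous.comp continuous_fst).continuousAt.mul
        (g.continuous.comp continuous_snd).continuousAt)
    · have h3 : ∀ᶠ w : V d × V d in 𝓝 z,
          c * ‖w.1 - w.2‖ ^ r * (f w.1 * g w.2) = 0 := by
        have h4 : ∀ᶠ w : V d × V d in 𝓝 z, w.2 ∈ (tsupport g)ᶜ :=
          continuous_snd.continuousAt.eventually
            ((isClosed_tsupport g).isOpen_compl.mem_nhds h2)
        filter_upwards [h4] with w hw
        rw [image_eq_zero_of_notMem_tsupport hw]
        ring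
      exact (continuousAt_const (y := (0 : ℝ))).congr (h3.mono fun w hw => hw.symm)
  · have h3 : ∀ᶠ w : V d × V d in 𝓝 z, c * ‖w.1 - w.2‖ ^ r * (f w.1 * g w.2) = 0 := by
      have h4 : ∀ᶠ w : V d × V d in 𝓝 z, w.1 ∈ (tsupport f)ᶜ :=
        continuous_fst.continuousAt.eventually ((isClosed_tsupport f).isOpen_compl.mem_nhds h1)
      filter_upwards [h4] with w hw
      rw [image_eq_zero_of_notMem_tsupport hw]
      ring
    exact (continuousAt_const (y := (0 : ℝ))).congr (h3.mono fun w hw => hw.symm)

theorem twp_int {d : ℕ} (c r : ℝ) (f g : S d) (hf : HasCompactSupport f)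
    (hg : HasCompactSupport g) (hfg : Disjoint (tsupport f) (tsupport g)) :
    Integrable fun z : V d × V d => c * ‖z.1 - z.2‖ ^ r * (f z.1 * g z.2) := by
  refine (twp_cont c r f g hfg).integrable_of_hasCompactSupport ?_
  refine HasCompactSupport.intro (K := tsupport f ×ˢ tsupport g)
    (hf.isCompact.prod hg.isCompact) fun z hz => ?_
  rw [Set.mem_prod, not_and_or] at hz
  rcases hz with hz | hz
  · rw [image_eq_zero_of_notMem_tsupport hz]
    ring
  · rw [image_eq_zero_of_notMem_tsupport hz]
    ring

theorem pf_TWP : T_TWP := by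
  intro d a ha h2 μ _ hT hS hR hM
  obtain ⟨-, h, -⟩ := Pool.Agent.H43.DPCS.final' a ha h2 μ hT hS
  obtain ⟨c, hc, hC⟩ := h hM hR
  refine ⟨c, hc, ?_⟩
  intro f g hf hg hfg
  have h1 := hC.1.2 ![f, g] (by
    intro i
    fin_cases i
    · exact hf
    · exact hg) (by
    intro i j hij
    fin_cases i <;> fin_cases j
    · exact absurd rfl hij
    · exact hfg
    · exact hfg.symm
    · exact absurd rfl hij)
  rw [h1, setIntegral_eq_integral_of_forall_compl_eq_zero]
  · have h3 : ∀ x : Fin 2 → V d, powKer a c x * ∏ i, (![f, g] : Fin 2 → S d) i (x i) =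
        (fun z : V d × V d => c * ‖z.1 - z.2‖ ^ (-(2 * a)) * (f z.1 * g z.2))
          (MeasurableEquiv.finTwoArrow x) := by
      intro x
      rw [Fin.prod_univ_two]
      rfl
    simp only [h3]
    rw [(volume_preserving_finTwoArrow (V d)).integral_comp'
      (fun z : V d × V d => c * ‖z.1 - z.2‖ ^ (-(2 * a)) * (f z.1 * g z.2)),
      Measure.volume_eq_prod, integral_prod _ (by
        rw [← Measure.volume_eq_prod]
        exact twp_int c (-(2 * a)) f g hf hg hfg)]
  · intro x hx
    rw [Set.notMem_compl_iff] at hx
    obtain ⟨i, j, hij, hx⟩ := hx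
    have h01 : x 0 = x 1 := by
      fin_cases i <;> fin_cases j
      · exact absurd rfl hij
      · exact hx
      · exact hx.symm
      · exact absurd rfl hij
    rw [Fin.prod_univ_two]
    change powKer a c x * (f (x 0) * g (x 1)) = 0
    by_cases h4 : x 0 ∈ tsupport f
    · have h5 : x 1 ∉ tsupport g := by
        rw [← h01]
        exact Set.disjoint_left.1 hfg h4
      rw [image_eq_zero_of_notMem_tsupport h5]
      ring
    · rw [image_eq_zero_of_notMem_tsupport h4]
      ring

end Pool.Agent.H75.LD
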